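import Pool.Agent.Lib.MP_2e793b_nt.Iface
import Pool.Agent.Lib.MP_ba0fa5_ag.AA.H54.Divb

/-!
Row MZ (contains EN and SM): a periodic real weight `w`, not identically zero, has `m ≤ N`
with `RR w m ≠ 0` and `h * m` not a square for `0 < h`, `h² ≤ N`.
-/

set_option autoImplicit false

namespace Pool.Agent.Lib.MP_2e793b_nt.H45

open Finset

theorem mem_prs {k : ℕ} {p : ℕ × ℕ} : p ∈ prs k ↔ p.1 ^ 2 + p.2 ^ 2 = k := by
  unfold prs
  rw [mem_filter, mem_product, mem_range, mem_range]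
  refine ⟨fun h => h.2, fun h => ⟨⟨?_, ?_⟩, h⟩⟩
  · nlinarith [Nat.zero_le (p.2 ^ 2), Nat.le_self_pow (two_ne_zero) p.1]
  · nlinarith [Nat.zero_le (p.1 ^ 2), Nat.le_self_pow (two_ne_zero) p.2]

/-- fibrewise squares are a sum over pairs in the same fibre -/
theorem sum_fiber_sq {α β : Type*} [DecidableEq β] (P : Finset α) (D : Finset β) (g : α → β)
    (hg : ∀ p ∈ P, g p ∈ D) (f : α → ℝ) :
    ∑ d ∈ D, (∑ p ∈ P.filter (fun p => g p = d), f p) ^ 2 =
      ∑ p ∈ P, ∑ q ∈ P, if g p = g q then f p * f q else 0 := by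
  have h1 : ∀ d ∈ D, (∑ p ∈ P.filter (fun p => g p = d), f p) ^ 2 =
      ∑ p ∈ P, ∑ q ∈ P, if g p = d then (if g q = d then f p * f q else 0) else 0 := by
    intro d _
    rw [sq, sum_mul_sum, sum_filter]
    refine sum_congr rfl fun p _ => ?_
    by_cases h : g p = d
    · simp only [if_pos h]
      rw [sum_filter]
    · simp only [if_neg h, sum_const_zero]
  rw [sum_congr rfl h1, sum_comm]
  refine sum_congr rfl fun p hp => ?_
  rw [sum_comm]
  refine sum_congr rfl fun q _ => ?_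
  rw [sum_ite_eq D (g p) (fun d => if g q = d then f p * f q else 0), if_pos (hg p hp)]
  by_cases h : g p = g q
  · rw [if_pos h, if_pos h.symm]
  · rw [if_neg h, if_neg (Ne.symm h)]

/-- the fourth moment is at least the square of the second moment -/
theorem four_ge (M : ℕ) (a : ℕ → ℝ) :
    (∑ u ∈ range (M + 1), a u ^ 2) ^ 2 ≤
      ∑ k ∈ range (2 * M ^ 2 + 1),
        (∑ p ∈ ((range (M + 1)) ×ˢ (range (M + 1))).filter (fun p => p.1 ^ 2 + p.2 ^ 2 = k),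
          a p.1 * a p.2) ^ 2 := by
  set U := range (M + 1) with hU
  rw [sum_fiber_sq (U ×ˢ U) (range (2 * M ^ 2 + 1)) (fun p => p.1 ^ 2 + p.2 ^ 2) ?_
    (fun p => a p.1 * a p.2)]
  swap
  · intro p hp
    rw [mem_product, hU, mem_range, mem_range] at hp
    rw [mem_range]
    have h1 : p.1 ^ 2 ≤ M ^ 2 := Nat.pow_le_pow_left (by omega) 2
    have h2 : p.2 ^ 2 ≤ M ^ 2 := Nat.pow_le_pow_left (by omega) 2
    omega
  set D : Finset ℤ := (U ×ˢ U).image (fun p => (p.1 : ℤ) ^ 2 - (p.2 : ℤ) ^ 2) with hD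
  have h0 := sum_fiber_sq (U ×ˢ U) D (fun p => (p.1 : ℤ) ^ 2 - (p.2 : ℤ) ^ 2)
    (fun p hp => mem_image_of_mem _ hp) (fun p => a p.1 * a p.2)
  have h1 : (∑ p ∈ U ×ˢ U, ∑ q ∈ U ×ˢ U, if p.1 ^ 2 + p.2 ^ 2 = q.1 ^ 2 + q.2 ^ 2
      then (a p.1 * a p.2) * (a q.1 * a q.2) else 0) =
      ∑ p ∈ U ×ˢ U, ∑ q ∈ U ×ˢ U, if (p.1 : ℤ) ^ 2 - (p.2 : ℤ) ^ 2 = (q.1 : ℤ) ^ 2 - (q.2 : ℤ) ^ 2
      then (a p.1 * a p.2) * (a q.1 * a q.2) else 0 := by
    simp only [sum_product]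
    refine sum_congr rfl fun x _ => ?_
    rw [sum_comm]
    have h2 : ∀ y ∈ U, (∑ x_1 ∈ U, ∑ y_1 ∈ U, if x ^ 2 + x_1 ^ 2 = y ^ 2 + y_1 ^ 2 then
        a x * a x_1 * (a y * a y_1) else 0) = ∑ y_1 ∈ U, ∑ x_1 ∈ U,
        if x ^ 2 + x_1 ^ 2 = y ^ 2 + y_1 ^ 2 then a x * a x_1 * (a y * a y_1) else 0 :=
      fun y _ => sum_comm
    rw [sum_congr rfl h2]
    refine sum_congr rfl fun y _ => sum_congr rfl fun z _ => sum_congr rfl fun t _ => ?_
    have e : (x ^ 2 + t ^ 2 = y ^ 2 + z ^ 2) ↔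
        ((x : ℤ) ^ 2 - (y : ℤ) ^ 2 = (z : ℤ) ^ 2 - (t : ℤ) ^ 2) := by
      constructor
      · intro h
        have : ((x : ℤ) ^ 2 + (t : ℤ) ^ 2 = (y : ℤ) ^ 2 + (z : ℤ) ^ 2) := by exact_mod_cast h
        linarith
      · intro h
        have : ((x : ℤ) ^ 2 + (t : ℤ) ^ 2 = (y : ℤ) ^ 2 + (z : ℤ) ^ 2) := by linarith
        exact_mod_cast this
    by_cases h : x ^ 2 + t ^ 2 = y ^ 2 + z ^ 2
    · rw [if_pos h, if_pos (e.1 h)]
      ring
    · rw [if_neg h, if_neg (fun h' => h (e.2 h'))]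
  rw [h1, ← h0]
  have h3 : (0 : ℤ) ∈ D := by
    rw [hD, mem_image]
    exact ⟨(0, 0), by simp [hU], by simp⟩
  refine le_trans (le_of_eq ?_) (single_le_sum (f := fun d =>
    (∑ p ∈ (U ×ˢ U).filter (fun p => (p.1 : ℤ) ^ 2 - (p.2 : ℤ) ^ 2 = d), a p.1 * a p.2) ^ 2)
    (fun d _ => sq_nonneg _) h3)
  congr 1
  have h4 : (U ×ˢ U).filter (fun p : ℕ × ℕ => (p.1 : ℤ) ^ 2 - (p.2 : ℤ) ^ 2 = 0) = U.diag := by
    ext p
    rw [mem_filter, mem_product, mem_diag]
    constructor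
    · rintro ⟨h, h'⟩
      refine ⟨h.1, ?_⟩
      have : (p.1 : ℤ) ^ 2 = (p.2 : ℤ) ^ 2 := by linarith
      have h5 : p.1 ^ 2 = p.2 ^ 2 := by exact_mod_cast this
      exact (Nat.pow_left_injective (n := 2) (by norm_num)) h5
    · rintro ⟨h, h'⟩
      rw [← h']
      exact ⟨⟨h, h⟩, by ring⟩
  rw [h4, sum_diag]
  exact sum_congr rfl fun u _ => sq _

/-- the numbers `k ≤ M ^ 2` for which some `h k`, `0 < h ≤ M`, is a square -/
noncomputable def bad (M : ℕ) : Finset ℕ := by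
  classical
  exact (range (M ^ 2 + 1)).filter fun k => ∃ h, 0 < h ∧ h ≤ M ∧ IsSquare (h * k)

theorem sqf_le {s h : ℕ} (hs : Squarefree s) (h0 : 0 < h) (hsq : IsSquare (h * s)) : s ≤ h := by
  obtain ⟨z, hz⟩ := hsq
  have h1 : s ∣ z ^ 2 := ⟨h, by rw [sq, ← hz]; ring⟩
  have h2 : s ∣ z := (hs.dvd_pow_iff_dvd two_ne_zero).1 h1
  obtain ⟨w, rfl⟩ := h2
  have hs0 : 0 < s := Nat.pos_of_ne_zero hs.ne_zero
  have h3 : h = s * (w * w) := by
    apply Nat.eq_of_mul_eq_mul_right hs0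
    rw [hz]
    ring
  have hw : 0 < w * w := by
    rcases Nat.eq_zero_or_pos (w * w) with h4 | h4
    · rw [h4, mul_zero] at h3
      omega
    · exact h4
  rw [h3]
  exact Nat.le_mul_of_pos_right s hw

theorem sum_inv_sqrt (M : ℕ) : ∑ s ∈ Icc 1 M, 1 / Real.sqrt s ≤ 2 * Real.sqrt M := by
  induction M with
  | zero => simp
  | succ M ih =>
    rw [sum_Icc_succ_top (by omega)]
    refine (add_le_add_left ih _).trans ?_
    have h0 : (0 : ℝ) ≤ M := Nat.cast_nonneg M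
    have h1 : Real.sqrt M ^ 2 = M := Real.sq_sqrt h0
    have h2 : Real.sqrt ((M + 1 : ℕ) : ℝ) ^ 2 = M + 1 := by
      rw [Real.sq_sqrt (by positivity)]
      push_cast
      ring
    set a := Real.sqrt M
    set c := Real.sqrt ((M + 1 : ℕ) : ℝ) with hc
    have ha0 : 0 ≤ a := Real.sqrt_nonneg _
    have hc0 : 0 < c := Real.sqrt_pos.2 (by positivity)
    rw [← sub_nonneg]
    have e : 2 * c - (2 * a + 1 / c) = (2 * c ^ 2 - 2 * a * c - 1) / c := by
      field_simp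
      ring
    rw [e]
    apply div_nonneg _ hc0.le
    nlinarith [sq_nonneg (a - c)]

theorem card_bad (M : ℕ) (hM : 0 < M) : ((bad M).card : ℝ) ≤ 4 * (M : ℝ) ^ (3 / 2 : ℝ) := by
  classical
  have hMr : (1 : ℝ) ≤ M := by exact_mod_cast hM
  have h1 : bad M ⊆ insert 0 (((Icc 1 M).sigma (fun s => range (Nat.sqrt (M ^ 2 / s) + 1))).image
      (fun p : (_ : ℕ) × ℕ => p.2 ^ 2 * p.1)) := by
    intro k hk
    unfold bad at hk
    rw [mem_filter, mem_range] at hk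
    obtain ⟨hk, h, h0, hH', hsq⟩ := hk
    rw [mem_insert]
    by_cases hk0 : k = 0
    · exact Or.inl hk0
    right
    obtain ⟨s, t, hst, hs⟩ := Nat.sq_mul_squarefree k
    rw [mem_image]
    refine ⟨⟨s, t⟩, ?_, hst⟩
    have ht0 : 0 < t := by
      rcases Nat.eq_zero_or_pos t with h4 | h4
      · rw [h4] at hst
        simp at hst
        omega
      · exact h4
    have hs0 : 0 < s := Nat.pos_of_ne_zero hs.ne_zero
    have hsq' : IsSquare (h * s) := by
      obtain ⟨z, hz⟩ := hsq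
      have h5 : t ^ 2 ∣ z ^ 2 := ⟨h * s, by rw [sq z, ← hz, ← hst]; ring⟩
      have h6 : t ∣ z := (Nat.pow_dvd_pow_iff two_ne_zero).1 h5
      obtain ⟨z', rfl⟩ := h6
      refine ⟨z', ?_⟩
      apply Nat.eq_of_mul_eq_mul_left (show 0 < t ^ 2 by positivity)
      calc t ^ 2 * (h * s) = h * (t ^ 2 * s) := by ring
        _ = h * k := by rw [hst]
        _ = t * z' * (t * z') := hz
        _ = t ^ 2 * (z' * z') := by ring
    have hsM : s ≤ M := (sqf_le hs h0 hsq').trans hH'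
    rw [mem_sigma, mem_Icc, mem_range]
    refine ⟨⟨hs0, hsM⟩, ?_⟩
    simp only
    have h7 : t * t ≤ M ^ 2 / s := by
      rw [Nat.le_div_iff_mul_le hs0]
      calc t * t * s = t ^ 2 * s := by ring
        _ = k := hst
        _ ≤ M ^ 2 := by omega
    have := Nat.le_sqrt.2 h7
    omega
  have h2 : (bad M).card ≤ (∑ s ∈ Icc 1 M, (Nat.sqrt (M ^ 2 / s) + 1)) + 1 := by
    refine (card_le_card h1).trans ((card_insert_le _ _).trans ?_)
    apply Nat.add_le_add_right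
    refine card_image_le.trans ?_
    rw [card_sigma]
    simp
  have h3 : ∀ s ∈ Icc 1 M, ((Nat.sqrt (M ^ 2 / s) + 1 : ℕ) : ℝ) ≤ M * (1 / Real.sqrt s) + 1 := by
    intro s hs
    rw [mem_Icc] at hs
    have hs0 : (0 : ℝ) < s := by exact_mod_cast hs.1
    push_cast
    apply add_le_add_left
    have h4 : ((Nat.sqrt (M ^ 2 / s) : ℕ) : ℝ) ^ 2 ≤ (M * (1 / Real.sqrt s)) ^ 2 := by
      rw [mul_pow, div_pow, Real.sq_sqrt hs0.le, one_pow]
      have h5 : ((Nat.sqrt (M ^ 2 / s) : ℕ) : ℝ) ^ 2 ≤ ((M ^ 2 / s : ℕ) : ℝ) := by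
        exact_mod_cast Nat.sqrt_le' (M ^ 2 / s)
      refine h5.trans (Nat.cast_div_le.trans (le_of_eq ?_))
      push_cast
      ring
    exact le_of_sq_le_sq h4 (by positivity)
  have h5 : ((bad M).card : ℝ) ≤ M * (2 * Real.sqrt M) + M + 1 := by
    have h6 : ((bad M).card : ℝ) ≤ (∑ s ∈ Icc 1 M, ((Nat.sqrt (M ^ 2 / s) + 1 : ℕ) : ℝ)) + 1 := by
      exact_mod_cast h2
    refine h6.trans ?_
    apply add_le_add_left
    refine (sum_le_sum h3).trans ?_
    rw [sum_add_distrib, ← mul_sum, sum_const, Nat.card_Icc]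
    have := mul_le_mul_of_nonneg_left (sum_inv_sqrt M) (show (0 : ℝ) ≤ M by linarith)
    simp only [Nat.add_sub_cancel, nsmul_eq_mul, mul_one]
    linarith
  have h7 : (M : ℝ) ^ (3 / 2 : ℝ) = M * Real.sqrt M := by
    rw [Real.sqrt_eq_rpow]
    nth_rw 2 [← Real.rpow_one (M : ℝ)]
    rw [← Real.rpow_add (by linarith)]
    norm_num
  rw [h7]
  have h8 : (1 : ℝ) ≤ Real.sqrt M := Real.one_le_sqrt.2 hMr
  nlinarith

theorem not_bad {M k : ℕ} (hk : k ≤ M ^ 2) (h : k ∉ bad M) :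
    ∀ h, 0 < h → h ≤ M → ¬ IsSquare (h * k) := by
  classical
  intro j h0 h1 h2
  apply h
  unfold bad
  rw [mem_filter, mem_range]
  exact ⟨by omega, j, h0, h1, h2⟩

/-- the truncated pairs are all pairs -/
theorem filter_eq_prs {M k : ℕ} (hk : k ≤ M ^ 2) :
    ((range (M + 1)) ×ˢ (range (M + 1))).filter (fun p => p.1 ^ 2 + p.2 ^ 2 = k) = prs k := by
  ext p
  rw [mem_prs, mem_filter, mem_product, mem_range, mem_range]
  refine ⟨fun h => h.2, fun h => ⟨⟨?_, ?_⟩, h⟩⟩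
  · have h1 : p.1 ^ 2 ≤ M ^ 2 := by omega
    have := (Nat.pow_le_pow_iff_left (n := 2) (by norm_num)).1 h1
    omega
  · have h1 : p.2 ^ 2 ≤ M ^ 2 := by omega
    have := (Nat.pow_le_pow_iff_left (n := 2) (by norm_num)).1 h1
    omega

/-- a lower bound for the sum of the squares of a periodic weight -/
theorem sum_sq_ge (w : ℕ → ℝ) (T : ℕ) (hT : 0 < T) (hper : ∀ u, w (u + T) = w u) (u0 : ℕ)
    (L : ℕ) (a : ℕ → ℝ) (M : ℕ) (hLM : L ≤ M)
    (ha : ∀ u, u ≤ L → w u ^ 2 / 2 ≤ a u ^ 2) :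
    w u0 ^ 2 / 2 * ((L : ℝ) / T - 1) ≤ ∑ u ∈ range (M + 1), a u ^ 2 := by
  set r := u0 % T with hr
  have hrT : r < T := Nat.mod_lt _ hT
  have hmul : ∀ j u, w (u + j * T) = w u := by
    intro j
    induction j with
    | zero => intro u; simp
    | succ j ih => intro u; rw [Nat.succ_mul, ← add_assoc, hper, ih]
  have hwr : w r = w u0 := by
    have := hmul (u0 / T) r
    rw [← this, hr]
    congr 1
    have := Nat.mod_add_div u0 T
    rw [mul_comm (u0 / T)]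
    exact this
  have h1 : ∑ j ∈ range (L / T), a (r + j * T) ^ 2 ≤ ∑ u ∈ range (M + 1), a u ^ 2 := by
    rw [← sum_image (s := range (L / T)) (g := fun j => r + j * T) (f := fun u => a u ^ 2)]
    · apply sum_le_sum_of_subset_of_nonneg
      · intro u hu
        rw [mem_image] at hu
        obtain ⟨j, hj, rfl⟩ := hu
        rw [mem_range] at hj ⊢
        have : (j + 1) * T ≤ L := by
          calc (j + 1) * T ≤ (L / T) * T := Nat.mul_le_mul_right _ (by omega)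
            _ ≤ L := Nat.div_mul_le_self _ _
        nlinarith
      · intro u _ _
        positivity
    · intro i _ j _ hij
      simp only at hij
      exact Nat.eq_of_mul_eq_mul_right hT (by omega)
  have h2 : (L : ℝ) / T - 1 ≤ ((L / T : ℕ) : ℝ) := by
    have h3 : L < T * (L / T + 1) := Nat.lt_mul_div_succ L hT
    have hTr : (0 : ℝ) < T := by exact_mod_cast hT
    rw [sub_le_iff_le_add, div_le_iff₀ hTr]
    have : (L : ℝ) < T * ((L / T : ℕ) + 1) := by exact_mod_cast h3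
    linarith [mul_comm (T : ℝ) (((L / T : ℕ) : ℝ) + 1)]
  calc w u0 ^ 2 / 2 * ((L : ℝ) / T - 1) ≤ w u0 ^ 2 / 2 * ((L / T : ℕ) : ℝ) :=
        mul_le_mul_of_nonneg_left h2 (by positivity)
    _ = ∑ j ∈ range (L / T), w u0 ^ 2 / 2 := by rw [sum_const, card_range, nsmul_eq_mul]; ring
    _ ≤ ∑ j ∈ range (L / T), a (r + j * T) ^ 2 := by
        apply sum_le_sum
        intro j hj
        rw [mem_range] at hj
        have h4 := ha (r + j * T) (by
          have : (j + 1) * T ≤ L := by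
            calc (j + 1) * T ≤ (L / T) * T := Nat.mul_le_mul_right _ (by omega)
              _ ≤ L := Nat.div_mul_le_self _ _
          nlinarith)
        rw [hmul, hwr] at h4
        exact h4
    _ ≤ _ := h1

theorem rep_le (hR : ReptStmt) (ε : ℝ) (hε : 0 < ε) :
    ∃ C : ℝ, ∀ k : ℕ, 1 ≤ k → (rep k : ℝ) ≤ C * (k : ℝ) ^ ε := by
  obtain ⟨C, hC0, hC⟩ := Pool.Agent.Lib.MP_ba0fa5_ag.AA.H54.divb (ε / 2) (by positivity)
  refine ⟨16 * C ^ 2, fun k hk => ?_⟩
  obtain ⟨h1, -, -⟩ := hC k hk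
  have h2 : (rep k : ℝ) ≤ 16 * (k.divisors.card : ℝ) ^ 2 := by exact_mod_cast hR k hk
  have hk0 : (0 : ℝ) < k := by exact_mod_cast hk
  have h3 : ((k : ℝ) ^ (ε / 2)) ^ 2 = (k : ℝ) ^ ε := by
    rw [← Real.rpow_natCast, ← Real.rpow_mul hk0.le]
    congr 1
    push_cast
    ring
  calc (rep k : ℝ) ≤ 16 * (k.divisors.card : ℝ) ^ 2 := h2
    _ ≤ 16 * (C * (k : ℝ) ^ (ε / 2)) ^ 2 := by
        apply mul_le_mul_of_nonneg_left _ (by norm_num)
        exact pow_le_pow_left₀ (by positivity) h1 2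
    _ = 16 * C ^ 2 * (k : ℝ) ^ ε := by rw [mul_pow, h3]; ring

theorem moment (hrep : ∀ ε : ℝ, 0 < ε → ∃ C : ℝ, ∀ k : ℕ, 1 ≤ k → (rep k : ℝ) ≤ C * (k : ℝ) ^ ε)
    (w : ℕ → ℝ) (T : ℕ) (hT : 0 < T) (hper : ∀ u, w (u + T) = w u) (hne : ∃ u, w u ≠ 0) :
    ∃ M0 : ℕ, ∀ M, M0 ≤ M → ∃ m, 1 ≤ m ∧ m ≤ M ^ 2 ∧
      (∀ h, 0 < h → h ≤ M → ¬ IsSquare (h * m)) ∧ RR w m ≠ 0 := by
  classical
  obtain ⟨u0, hu0⟩ := hne
  -- the bound of w
  obtain ⟨W, hW1, hW⟩ : ∃ W : ℝ, 1 ≤ W ∧ ∀ u, |w u| ≤ W := by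
    refine ⟨1 + ∑ r ∈ range T, |w r|, ?_, fun u => ?_⟩
    · have : 0 ≤ ∑ r ∈ range T, |w r| := sum_nonneg fun _ _ => abs_nonneg _
      linarith
    · have hmul : ∀ j u, w (u + j * T) = w u := by
        intro j
        induction j with
        | zero => intro u; simp
        | succ j ih => intro u; rw [Nat.succ_mul, ← add_assoc, hper, ih]
      have h1 : w u = w (u % T) := by
        have h2 := hmul (u / T) (u % T)
        rw [mul_comm, Nat.mod_add_div] at h2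
        exact h2
      rw [h1]
      have h3 := single_le_sum (f := fun r => |w r|) (s := range T) (fun _ _ => abs_nonneg _)
        (mem_range.2 (Nat.mod_lt u hT))
      linarith
  obtain ⟨C0, hC0⟩ := hrep (1 / 16) (by norm_num)
  set C : ℝ := max C0 1 with hC
  have hC1 : 1 ≤ C := le_max_right _ _
  have hTr : (1 : ℝ) ≤ T := by exact_mod_cast hT
  set c : ℝ := (w u0 ^ 2 / (4 * T)) ^ 2 with hc
  have hc0 : 0 < c := by
    have : 0 < w u0 ^ 2 := by positivity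
    positivity
  set K1 : ℝ := 4 * (W ^ 2 * C) ^ 2 with hK1
  set K2 : ℝ := 48 * W ^ 4 with hK2
  -- the asymptotic conditions
  have hev : ∀ᶠ M : ℕ in Filter.atTop, (1 : ℝ) ≤ M ∧ 8 * Real.log M ≤ 1 / 2 * (M : ℝ) ^ (1 / 16 : ℝ) ∧
      2 * (T : ℝ) + 2 ≤ (M : ℝ) ^ (31 / 32 : ℝ) ∧ (K1 + K2) / c < (M : ℝ) ^ (3 / 16 : ℝ) := by
    have e1 : ∀ᶠ x : ℝ in Filter.atTop, 8 * Real.log x ≤ 1 / 2 * x ^ (1 / 16 : ℝ) := by
      have h1 := (isLittleO_log_rpow_atTop (r := 1 / 16) (by norm_num)).bound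
        (c := 1 / 16) (by norm_num)
      filter_upwards [h1, Filter.eventually_ge_atTop 1] with x hx hx1
      rw [Real.norm_eq_abs, Real.norm_eq_abs, abs_of_nonneg (Real.log_nonneg hx1),
        abs_of_nonneg (by positivity)] at hx
      linarith
    have e2 := (tendsto_rpow_atTop (y := 31 / 32) (by norm_num)).eventually_ge_atTop (2 * (T : ℝ) + 2)
    have e3 := (tendsto_rpow_atTop (y := 3 / 16) (by norm_num)).eventually_gt_atTop ((K1 + K2) / c)
    have h := tendsto_natCast_atTop_atTop (R := ℝ) |>.eventually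
      ((Filter.eventually_ge_atTop 1).and (e1.and (e2.and e3)))
    exact h
  obtain ⟨M0, hM0⟩ := Filter.eventually_atTop.1 hev
  refine ⟨M0, fun M hM => ?_⟩
  obtain ⟨hM1, hE1, hE2, hE3⟩ := hM0 M hM
  have hMn : 0 < M := by
    have : (0 : ℝ) < M := by linarith
    exact_mod_cast this
  by_contra hcon
  push Not at hcon
  have hzero : ∀ m, 1 ≤ m → m ≤ M ^ 2 → m ∉ bad M → RR w m = 0 :=
    fun m h1 h2 h3 => hcon m h1 h2 (not_bad h2 h3)
  set t : ℝ := 8 * Real.log M / (M : ℝ) ^ 2 with ht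
  have hlog : 0 ≤ Real.log M := Real.log_nonneg hM1
  have ht0 : 0 ≤ t := by positivity
  set a : ℕ → ℝ := fun u => w u * Real.exp (-(t * (u : ℝ) ^ 2 / 2)) with ha
  have h4 := four_ge M a
  -- upper bound
  have hinner : ∀ k : ℕ, ∑ p ∈ ((range (M + 1)) ×ˢ (range (M + 1))).filter
      (fun p => p.1 ^ 2 + p.2 ^ 2 = k), a p.1 * a p.2 = Real.exp (-(t * k / 2)) *
      ∑ p ∈ ((range (M + 1)) ×ˢ (range (M + 1))).filter
      (fun p => p.1 ^ 2 + p.2 ^ 2 = k), w p.1 * w p.2 := by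
    intro k
    rw [mul_sum]
    refine sum_congr rfl fun p hp => ?_
    rw [mem_filter] at hp
    have e : (k : ℝ) = (p.1 : ℝ) ^ 2 + (p.2 : ℝ) ^ 2 := by exact_mod_cast hp.2.symm
    have e2 : Real.exp (-(t * k / 2)) = Real.exp (-(t * (p.1 : ℝ) ^ 2 / 2)) *
        Real.exp (-(t * (p.2 : ℝ) ^ 2 / 2)) := by
      rw [← Real.exp_add, e]
      congr 1
      ring
    rw [e2, ha]
    ring
  have hexp1 : ∀ k : ℕ, Real.exp (-(t * k / 2)) ≤ 1 := by
    intro k
    rw [Real.exp_le_one_iff]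
    have : 0 ≤ t * k / 2 := by positivity
    linarith
  have hww : ∀ S : Finset (ℕ × ℕ), |∑ p ∈ S, w p.1 * w p.2| ≤ W ^ 2 * S.card := by
    intro S
    refine (abs_sum_le_sum_abs _ _).trans ?_
    calc ∑ p ∈ S, |w p.1 * w p.2| ≤ ∑ p ∈ S, W ^ 2 := by
          apply sum_le_sum
          intro p _
          rw [abs_mul, sq]
          exact mul_le_mul (hW _) (hW _) (abs_nonneg _) (by linarith)
      _ = W ^ 2 * S.card := by rw [sum_const, nsmul_eq_mul]; ring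
  set B1 : ℝ := (W ^ 2 * (C * (M : ℝ) ^ (1 / 8 : ℝ))) ^ 2 with hB1
  set B2 : ℝ := 16 * W ^ 4 * (M : ℝ) ^ 4 / (M : ℝ) ^ 8 with hB2
  have hB20 : 0 ≤ B2 := by positivity
  have hM8 : (1 : ℝ) ≤ (M : ℝ) ^ (1 / 8 : ℝ) := Real.one_le_rpow hM1 (by norm_num)
  have hterm : ∀ k ∈ range (2 * M ^ 2 + 1),
      (∑ p ∈ ((range (M + 1)) ×ˢ (range (M + 1))).filter
      (fun p => p.1 ^ 2 + p.2 ^ 2 = k), a p.1 * a p.2) ^ 2 ≤
      (if k ∈ bad M then B1 else 0) + B2 := by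
    intro k _
    rw [hinner k, mul_pow]
    by_cases hk : k ≤ M ^ 2
    · rw [filter_eq_prs hk]
      by_cases hb : k ∈ bad M
      · rw [if_pos hb]
        have h5 : ((prs k).card : ℝ) ≤ C * (M : ℝ) ^ (1 / 8 : ℝ) := by
          rcases Nat.eq_zero_or_pos k with rfl | hk0
          · have : (prs 0).card ≤ 1 := by
              rw [card_le_one]
              intro x hx y hy
              rw [mem_prs] at hx hy
              have hx1 : x.1 = 0 := by nlinarith [sq_nonneg x.1, sq_nonneg x.2]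
              have hx2 : x.2 = 0 := by nlinarith [sq_nonneg x.1, sq_nonneg x.2]
              have hy1 : y.1 = 0 := by nlinarith [sq_nonneg y.1, sq_nonneg y.2]
              have hy2 : y.2 = 0 := by nlinarith [sq_nonneg y.1, sq_nonneg y.2]
              exact Prod.ext (hx1.trans hy1.symm) (hx2.trans hy2.symm)
            have : ((prs 0).card : ℝ) ≤ 1 := by exact_mod_cast this
            nlinarith
          · refine (hC0 k hk0).trans ?_
            have h6 : ((k : ℝ)) ^ (1 / 16 : ℝ) ≤ (M : ℝ) ^ (1 / 8 : ℝ) := by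
              have e : (M : ℝ) ^ (1 / 8 : ℝ) = ((M : ℝ) ^ (2 : ℝ)) ^ (1 / 16 : ℝ) := by
                rw [← Real.rpow_mul (by linarith)]
                norm_num
              rw [e]
              apply Real.rpow_le_rpow (by positivity) _ (by norm_num)
              have : ((k : ℕ) : ℝ) ≤ (M : ℝ) ^ 2 := by exact_mod_cast hk
              calc (k : ℝ) ≤ (M : ℝ) ^ 2 := this
                _ = (M : ℝ) ^ (2 : ℝ) := by norm_cast
            calc C0 * (k : ℝ) ^ (1 / 16 : ℝ) ≤ C * (k : ℝ) ^ (1 / 16 : ℝ) :=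
                  mul_le_mul_of_nonneg_right (le_max_left _ _) (by positivity)
              _ ≤ _ := mul_le_mul_of_nonneg_left h6 (by linarith)
        have h6 : (∑ p ∈ prs k, w p.1 * w p.2) ^ 2 ≤ B1 := by
          rw [hB1, sq_le_sq, abs_of_nonneg (a := W ^ 2 * (C * (M : ℝ) ^ (1 / 8 : ℝ))) (by positivity)]
          exact (hww _).trans (mul_le_mul_of_nonneg_left h5 (by positivity))
        have h7 : Real.exp (-(t * k / 2)) ^ 2 ≤ 1 := pow_le_one₀ (Real.exp_pos _).le (hexp1 k)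
        have h8 : Real.exp (-(t * k / 2)) ^ 2 * (∑ p ∈ prs k, w p.1 * w p.2) ^ 2 ≤ 1 * B1 :=
          mul_le_mul h7 h6 (sq_nonneg _) (by norm_num)
        linarith
      · rw [if_neg hb]
        have hk0 : 1 ≤ k := by
          rcases Nat.eq_zero_or_pos k with rfl | hk0
          · exfalso
            apply hb
            unfold bad
            rw [mem_filter, mem_range]
            exact ⟨by positivity, 1, one_pos, hMn, 0, by simp⟩
          · exact hk0
        have h9 := hzero k hk0 hk hb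
        unfold RR at h9
        rw [h9]
        simp only [ne_eq, OfNat.ofNat_ne_zero, not_false_eq_true, zero_pow, mul_zero, zero_add]
        exact hB20
    · push Not at hk
      have h9 : 0 ≤ (if k ∈ bad M then B1 else 0) := by
        split_ifs
        · positivity
        · exact le_rfl
      have h10 : Real.exp (-(t * k / 2)) ^ 2 ≤ 1 / (M : ℝ) ^ 8 := by
        rw [← Real.exp_nat_mul]
        have hk' : ((M : ℝ) ^ 2) ≤ k := by exact_mod_cast hk.le
        have h11 : 8 * Real.log M ≤ t * k := by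
          have : t * (M : ℝ) ^ 2 = 8 * Real.log M := by
            rw [ht]
            field_simp
          rw [← this]
          exact mul_le_mul_of_nonneg_left hk' ht0
        have h12 : Real.exp (((2 : ℕ) : ℝ) * -(t * k / 2)) ≤ Real.exp (-(8 * Real.log M)) := by
          apply Real.exp_le_exp.2
          push_cast
          linarith
        refine h12.trans (le_of_eq ?_)
        rw [Real.exp_neg, one_div]
        congr 1
        have : (8 : ℝ) * Real.log M = ((8 : ℕ) : ℝ) * Real.log M := by norm_num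
        rw [this, Real.exp_nat_mul, Real.exp_log (by linarith)]
      have h13 : (∑ p ∈ ((range (M + 1)) ×ˢ (range (M + 1))).filter
          (fun p => p.1 ^ 2 + p.2 ^ 2 = k), w p.1 * w p.2) ^ 2 ≤ 16 * W ^ 4 * (M : ℝ) ^ 4 := by
        have h14 : 16 * W ^ 4 * (M : ℝ) ^ 4 = (W ^ 2 * (4 * (M : ℝ) ^ 2)) ^ 2 := by ring
        rw [h14, sq_le_sq, abs_of_nonneg (a := W ^ 2 * (4 * (M : ℝ) ^ 2)) (by positivity)]
        refine (hww _).trans (mul_le_mul_of_nonneg_left ?_ (by positivity))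
        have h15 : (((range (M + 1)) ×ˢ (range (M + 1))).filter
          (fun p => p.1 ^ 2 + p.2 ^ 2 = k)).card ≤ (M + 1) * (M + 1) := by
          refine (card_filter_le _ _).trans ?_
          rw [card_product, card_range]
        have h16 : ((((range (M + 1)) ×ˢ (range (M + 1))).filter
          (fun p => p.1 ^ 2 + p.2 ^ 2 = k)).card : ℝ) ≤ ((M : ℝ) + 1) * ((M : ℝ) + 1) := by
          exact_mod_cast h15
        refine h16.trans ?_
        nlinarith
      have h18 : Real.exp (-(t * k / 2)) ^ 2 * (∑ p ∈ ((range (M + 1)) ×ˢ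
          (range (M + 1))).filter (fun p => p.1 ^ 2 + p.2 ^ 2 = k), w p.1 * w p.2) ^ 2 ≤
          1 / (M : ℝ) ^ 8 * (16 * W ^ 4 * (M : ℝ) ^ 4) :=
        mul_le_mul h10 h13 (sq_nonneg _) (by positivity)
      have h19 : 1 / (M : ℝ) ^ 8 * (16 * W ^ 4 * (M : ℝ) ^ 4) = B2 := by
        rw [hB2]
        ring
      linarith
  have hup : ∑ k ∈ range (2 * M ^ 2 + 1),
      (∑ p ∈ ((range (M + 1)) ×ˢ (range (M + 1))).filter
      (fun p => p.1 ^ 2 + p.2 ^ 2 = k), a p.1 * a p.2) ^ 2 ≤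
      K1 * (M : ℝ) ^ (7 / 4 : ℝ) + K2 := by
    refine (sum_le_sum hterm).trans ?_
    rw [sum_add_distrib, ← sum_filter, sum_const, sum_const, card_range, nsmul_eq_mul, nsmul_eq_mul]
    have h20 : (((range (2 * M ^ 2 + 1)).filter (fun k => k ∈ bad M)).card : ℝ) ≤
        4 * (M : ℝ) ^ (3 / 2 : ℝ) := by
      refine le_trans ?_ (card_bad M hMn)
      have : ((range (2 * M ^ 2 + 1)).filter (fun k => k ∈ bad M)) ⊆ bad M :=
        fun x hx => (mem_filter.1 hx).2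
      exact_mod_cast card_le_card this
    have h21 : (((range (2 * M ^ 2 + 1)).filter (fun k => k ∈ bad M)).card : ℝ) * B1 ≤
        K1 * (M : ℝ) ^ (7 / 4 : ℝ) := by
      refine (mul_le_mul_of_nonneg_right h20 (by positivity)).trans (le_of_eq ?_)
      rw [hB1, hK1]
      have e : (M : ℝ) ^ (7 / 4 : ℝ) = (M : ℝ) ^ (3 / 2 : ℝ) * ((M : ℝ) ^ (1 / 8 : ℝ)) ^ 2 := by
        rw [← Real.rpow_natCast ((M : ℝ) ^ (1 / 8 : ℝ)) 2, ← Real.rpow_mul (by linarith),
          ← Real.rpow_add (by linarith)]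
        norm_num
      rw [e]
      ring
    have h22 : ((2 * M ^ 2 + 1 : ℕ) : ℝ) * B2 ≤ K2 := by
      push_cast
      have h17 : (1 : ℝ) ≤ (M : ℝ) ^ 2 := one_le_pow₀ hM1
      have h23 : 2 * (M : ℝ) ^ 2 + 1 ≤ 3 * (M : ℝ) ^ 2 := by nlinarith
      refine (mul_le_mul_of_nonneg_right h23 hB20).trans ?_
      rw [hB2, hK2]
      have h24 : 3 * (M : ℝ) ^ 2 * (16 * W ^ 4 * (M : ℝ) ^ 4 / (M : ℝ) ^ 8) =
          48 * W ^ 4 / (M : ℝ) ^ 2 := by
        have : (M : ℝ) ≠ 0 := by linarith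
        field_simp
        ring
      rw [h24]
      exact div_le_self (by positivity) h17
    linarith
  -- lower bound
  set L : ℕ := ⌊(M : ℝ) ^ (31 / 32 : ℝ)⌋₊ with hL
  have hLle : (L : ℝ) ≤ (M : ℝ) ^ (31 / 32 : ℝ) := Nat.floor_le (by positivity)
  have hLM : L ≤ M := by
    have : (L : ℝ) ≤ (M : ℝ) := by
      refine hLle.trans ?_
      conv_rhs => rw [← Real.rpow_one (M : ℝ)]
      exact Real.rpow_le_rpow_of_exponent_le hM1 (by norm_num)
    exact_mod_cast this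
  have hau : ∀ u, u ≤ L → w u ^ 2 / 2 ≤ a u ^ 2 := by
    intro u hu
    rw [ha]
    simp only
    rw [mul_pow, ← Real.exp_nat_mul]
    have h25 : (u : ℝ) ^ 2 ≤ (M : ℝ) ^ (31 / 16 : ℝ) := by
      have h26 : (u : ℝ) ≤ (M : ℝ) ^ (31 / 32 : ℝ) := by
        have : (u : ℝ) ≤ L := by exact_mod_cast hu
        linarith
      calc (u : ℝ) ^ 2 ≤ ((M : ℝ) ^ (31 / 32 : ℝ)) ^ 2 := pow_le_pow_left₀ (by positivity) h26 2
        _ = (M : ℝ) ^ (31 / 16 : ℝ) := by
          rw [← Real.rpow_natCast ((M : ℝ) ^ (31 / 32 : ℝ)) 2, ← Real.rpow_mul (by linarith)]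
          norm_num
    have h27 : t * (u : ℝ) ^ 2 ≤ 1 / 2 := by
      have h28 : (M : ℝ) ^ 2 = (M : ℝ) ^ (31 / 16 : ℝ) * (M : ℝ) ^ (1 / 16 : ℝ) := by
        rw [← Real.rpow_add (by linarith)]
        norm_num
      rw [ht, div_mul_eq_mul_div, div_le_iff₀ (by positivity), h28]
      calc 8 * Real.log M * (u : ℝ) ^ 2 ≤ (1 / 2 * (M : ℝ) ^ (1 / 16 : ℝ)) *
            (M : ℝ) ^ (31 / 16 : ℝ) := mul_le_mul hE1 h25 (by positivity) (by positivity)
        _ = 1 / 2 * ((M : ℝ) ^ (31 / 16 : ℝ) * (M : ℝ) ^ (1 / 16 : ℝ)) := by ring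
    have h29 : (1 : ℝ) / 2 ≤ Real.exp (((2 : ℕ) : ℝ) * -(t * (u : ℝ) ^ 2 / 2)) := by
      have h30 := Real.add_one_le_exp (((2 : ℕ) : ℝ) * -(t * (u : ℝ) ^ 2 / 2))
      push_cast at h30 ⊢
      linarith
    nlinarith [sq_nonneg (w u)]
  have hlow := sum_sq_ge w T hT hper u0 L a M hLM hau
  have hlow2 : w u0 ^ 2 / (4 * T) * (M : ℝ) ^ (31 / 32 : ℝ) ≤
      ∑ u ∈ range (M + 1), a u ^ 2 := by
    refine le_trans ?_ hlow
    have h31 : (M : ℝ) ^ (31 / 32 : ℝ) - 1 ≤ L := by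
      have := Nat.lt_floor_add_one ((M : ℝ) ^ (31 / 32 : ℝ))
      rw [← hL] at this
      linarith
    have h32 : (M : ℝ) ^ (31 / 32 : ℝ) / (2 * T) ≤ (L : ℝ) / T - 1 := by
      rw [le_sub_iff_add_le, div_add' _ _ _ (by positivity), div_le_div_iff₀ (by positivity)
        (by positivity)]
      nlinarith
    calc w u0 ^ 2 / (4 * T) * (M : ℝ) ^ (31 / 32 : ℝ) = w u0 ^ 2 / 2 *
          ((M : ℝ) ^ (31 / 32 : ℝ) / (2 * T)) := by
          field_simp
          try ring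
      _ ≤ _ := mul_le_mul_of_nonneg_left h32 (by positivity)
  have hfin : c * ((M : ℝ) ^ (7 / 4 : ℝ) * (M : ℝ) ^ (3 / 16 : ℝ)) ≤
      K1 * (M : ℝ) ^ (7 / 4 : ℝ) + K2 := by
    refine le_trans ?_ (h4.trans hup)
    refine le_trans (le_of_eq ?_) (pow_le_pow_left₀ (by positivity) hlow2 2)
    rw [hc, mul_pow]
    congr 1
    rw [← Real.rpow_natCast ((M : ℝ) ^ (31 / 32 : ℝ)) 2, ← Real.rpow_mul (by linarith),
      ← Real.rpow_add (by linarith)]
    norm_num
  have h33 : (1 : ℝ) ≤ (M : ℝ) ^ (7 / 4 : ℝ) := Real.one_le_rpow hM1 (by norm_num)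
  rw [div_lt_iff₀ hc0] at hE3
  have hK20 : 0 ≤ K2 := by positivity
  nlinarith [mul_lt_mul_of_pos_right hE3 (show (0 : ℝ) < (M : ℝ) ^ (7 / 4 : ℝ) by positivity)]

/-- **MZ** -/
theorem mz (hR : ReptStmt) : MzStmt := by
  intro T w hT hper hne
  obtain ⟨M0, hM0⟩ := moment (rep_le hR) w T hT hper hne
  refine ⟨M0 ^ 2, fun N hN => ?_⟩
  have h1 : M0 ≤ Nat.sqrt N := Nat.le_sqrt'.2 hN
  obtain ⟨m, hm1, hm2, hm3, hm4⟩ := hM0 (Nat.sqrt N) h1
  refine ⟨m, hm1, hm2.trans (Nat.sqrt_le' N), hm4, fun h h0 h2 => hm3 h h0 (Nat.le_sqrt'.2 h2)⟩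

end Pool.Agent.Lib.MP_2e793b_nt.H45
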